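import Pool.Agent.H170.FC.Fin

set_option autoImplicit false

/-!
# Central Frattini extensions and Fitting classes: all primes

For every prime `p`, every odd prime `q ≠ p` and every `m ≥ 1` there is one Fitting class `X` of
finite soluble groups such that for all `k > m` with `q ∣ p ^ k - 1` (for example all multiples `k > m`
of `q - 1`) there is a metanilpotent group `G` of order `q p^(3k)` with a subgroup `Z`, of order
`p^(k-m)`, of the intersection of the centre and the Frattini subgroup, such that `G / Z` is in `X`
but `G` is not.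

The group is `P ⋊ T` with `T` the `q`-th roots of unity in the field `F` with `p^k` elements and `P`
the Heisenberg group over `F`; the theory of the classes `Cls p q m` is that of
`Pool.Agent.Helper218` (starting repository, where the example is given for `p = 7`, `q = 3`).
-/

namespace Pool.Agent.Results.MP_ddb4d7_al.AllPrimes

open Pool.Agent.Results.MP_ddb4d7_al.CentralFrattini (IsFittingClass IsMetanilpotent)

theorem result (p q : ℕ) (hp : p.Prime) (hq : q.Prime) (hq2 : q ≠ 2) (hpq : p ≠ q) :
    (∀ j : ℕ, q ∣ p ^ ((q - 1) * j) - 1) ∧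
    ∀ m : ℕ, 1 ≤ m → ∃ X : (G : Type) → [Group G] → Prop, IsFittingClass X ∧
      ∀ k : ℕ, m < k → q ∣ p ^ k - 1 →
        ∃ (G : Type) (_ : Group G) (_ : Finite G) (Z : Subgroup G) (_ : Z.Normal),
          Nat.card G = q * p ^ (3 * k) ∧ Nat.card Z = p ^ (k - m) ∧
          IsMetanilpotent G ∧ Z ≤ Subgroup.center G ⊓ frattini G ∧ X (G ⧸ Z) ∧ ¬ X G :=
  ⟨fun j => Pool.Agent.H170.FC.fermat p q hp hq hpq j,
    fun m hm => Pool.Agent.H170.FC.main p q m hp hq hq2 hpq hm⟩

end Pool.Agent.Results.MP_ddb4d7_al.AllPrimes
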